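import Pool.Agent.Q161.TwoChain2

/-!
MP_5b4ede_co, Q1: `EN_{s,2}(123)[q] = q^{2 * (s choose 2)} c_s(q)`.
-/

set_option autoImplicit false

namespace Pool.Agent.Results.MP_5b4ede_co.MajorIndexEN

open Finset Polynomial Q161.TwoRow

/-- the order of `EN_{s,t}`; the element `x + 1` of `[st]` is represented by `x`, so that its tooth
is `x / t + 1` and its position in the tooth is `x % t + 1` -/
def ENle (s t : ℕ) (x y : Fin (s * t)) : Prop := (y : ℕ) / t ≤ (x : ℕ) / t ∧ (x : ℕ) % t ≤ (y : ℕ) % t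

/-- `π` (one-line notation) is a linear extension of `EN_{s,t}` -/
def IsLinExt (s t : ℕ) (π : Equiv.Perm (Fin (s * t))) : Prop :=
  ∀ a b, ENle s t (π a) (π b) → π a ≠ π b → a < b

open Classical in
/-- `EN_{s,t}(123)[q]` -/
noncomputable def EN123 (s t : ℕ) : ℤ[X] :=
  ∑ π ∈ univ.filter (fun π : Equiv.Perm (Fin (s * t)) => IsLinExt s t π ∧ Avoids123 π),
    X ^ maj (fun i => ((π i : Fin (s * t)) : ℕ))

/-- the labelling -/
def E (s : ℕ) : Bool × Fin s ≃ Fin (s * 2) where
  toFun p := ⟨2 * (s - 1 - p.2) + p.1.toNat, by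
    have := p.2.2
    have := Bool.toNat_le p.1
    omega⟩
  invFun x := (decide ((x : ℕ) % 2 = 1), ⟨s - 1 - x / 2, by
    have := x.2
    omega⟩)
  left_inv := by
    rintro ⟨c, k⟩
    have := k.2
    apply Prod.ext
    · cases c
      · simp only [Bool.toNat_false]
        rw [decide_eq_false_iff_not]; omega
      · simp only [Bool.toNat_true]
        rw [decide_eq_true_iff]; omega
    · apply Fin.ext
      cases c <;> simp only [Bool.toNat_false, Bool.toNat_true] <;> omega
  right_inv := by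
    intro x
    have := x.2
    apply Fin.ext
    by_cases h : (x : ℕ) % 2 = 1
    · simp only [h, decide_true, Bool.toNat_true]
      omega
    · simp only [h, decide_false, Bool.toNat_false]
      omega

theorem E_val (s : ℕ) (x : Fin (s * 2)) :
    (x : ℕ) = 2 * (s - 1 - ((E s).symm x).2) + ((E s).symm x).1.toNat := by
  have h : (E s) ((E s).symm x) = x := Equiv.apply_symm_apply _ _
  exact (congrArg Fin.val h).symm

theorem le_iff (s : ℕ) (x y : Fin (s * 2)) :
    (E s).symm x ≤ (E s).symm y ↔ ENle s 2 x y := by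
  have hx := x.2
  have hy := y.2
  have e1 : (E s).symm x = (decide ((x : ℕ) % 2 = 1), ⟨s - 1 - x / 2, by omega⟩) := rfl
  have e2 : (E s).symm y = (decide ((y : ℕ) % 2 = 1), ⟨s - 1 - y / 2, by omega⟩) := rfl
  rw [e1, e2, Prod.mk_le_mk, Fin.mk_le_mk]
  unfold ENle
  by_cases h1 : (x : ℕ) % 2 = 1 <;> by_cases h2 : (y : ℕ) % 2 = 1
  · simp only [h1, h2, le_refl, true_and, and_true]
    omega
  · simp only [h1, h2, decide_true, decide_false]
    constructor
    · rintro ⟨h, _⟩
      exact absurd h (by decide)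
    · rintro ⟨_, h⟩
      omega
  · simp only [h1, h2, decide_true, decide_false]
    constructor
    · rintro ⟨_, h⟩
      exact ⟨by omega, by omega⟩
    · rintro ⟨h, _⟩
      exact ⟨by decide, by omega⟩
  · simp only [h1, h2, decide_false, le_refl, true_and]
    constructor
    · intro h
      exact ⟨by omega, by omega⟩
    · rintro ⟨h, _⟩
      omega

theorem linExt_iff (s : ℕ) (π : Equiv.Perm (Fin (s * 2))) : IsLinExt s 2 π ↔ LE (E s) π := by
  unfold IsLinExt Q161.TwoRow.LE
  constructor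
  · intro h a b hab
    rw [le_iff] at hab
    by_cases hne : π a = π b
    · exact le_of_eq (π.injective hne)
    · exact le_of_lt (h a b hab hne)
  · intro h a b hab hne
    rw [← le_iff] at hab
    exact lt_of_le_of_ne (h a b hab) (fun he => hne (by rw [he]))

/-- three elements: two of them are in the same chain, which is decreasing -/
theorem avoids (s : ℕ) (π : Equiv.Perm (Fin (s * 2))) (h : LE (E s) π) : Avoids123 π := by
  rintro ⟨a, b, c, hab, hbc, h1, h2⟩
  have key : ∀ x y : Fin (s * 2), x < y → ((E s).symm (π x)).1 = ((E s).symm (π y)).1 →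
      π y < π x := by
    intro x y hxy hc
    have h3 : ¬ (E s).symm (π y) ≤ (E s).symm (π x) := fun h3 => absurd (h y x h3) (not_le.2 hxy)
    have h4 : ((E s).symm (π x)).2 < ((E s).symm (π y)).2 := by
      by_contra hc'
      rw [not_lt] at hc'
      exact h3 ⟨le_of_eq hc.symm, hc'⟩
    rw [Fin.lt_def] at h4 ⊢
    rw [E_val s (π y), E_val s (π x), hc]
    have := ((E s).symm (π y)).2.2
    omega
  have k1 := key a b hab
  have k2 := key b c hbc
  have k3 := key a c (hab.trans hbc)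
  have h3 := h1.trans h2
  rcases Bool.eq_false_or_eq_true ((E s).symm (π a)).1 with ea | ea <;>
    rcases Bool.eq_false_or_eq_true ((E s).symm (π b)).1 with eb | eb <;>
    rcases Bool.eq_false_or_eq_true ((E s).symm (π c)).1 with ec | ec <;>
    rw [ea, eb] at k1 <;> rw [eb, ec] at k2 <;> rw [ea, ec] at k3 <;>
    first
      | exact absurd (k1 rfl) (not_lt.2 h1.le)
      | exact absurd (k2 rfl) (not_lt.2 h2.le)
      | exact absurd (k3 rfl) (not_lt.2 h3.le)

theorem maj_pi (s : ℕ) (π : Equiv.Perm (Fin (s * 2))) (h : LE (E s) π) :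
    maj (fun i => ((π i : Fin (s * 2)) : ℕ)) =
      ∑ i ∈ range (s * 2 - 1), if ¬ (i ∉ pos (E s) π ∧ i + 1 ∈ pos (E s) π) then i + 1 else 0 := by
  classical
  apply maj_eq
  intro i hi
  have hbal := bal_pos h
  have hs1 := one_succ (pos (E s) π) i
  have b1 := hbal (i + 1) (by omega)
  have b2 := hbal (i + 1 + 1) (by omega)
  have hs2 := one_succ (pos (E s) π) (i + 1)
  have v1 := E_val s (π ⟨i, by omega⟩)
  have v2 := E_val s (π ⟨i + 1, hi⟩)
  have l1 := ((E s).symm (π ⟨i, by omega⟩)).2.2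
  have l2 := ((E s).symm (π ⟨i + 1, hi⟩)).2.2
  by_cases h1 : i ∈ pos (E s) π <;> by_cases h2 : i + 1 ∈ pos (E s) π
  · obtain ⟨a1, a2⟩ := val_true h ⟨i, by omega⟩ h1
    obtain ⟨c1, c2⟩ := val_true h ⟨i + 1, hi⟩ h2
    rw [if_pos h1] at hs1
    rw [if_pos h2] at hs2
    rw [a1] at v1; rw [c1] at v2
    simp only [Bool.toNat_true] at v1 v2 a2 c2
    simp only [h1, h2, not_true, false_and, not_false_iff, iff_true]
    omega
  · obtain ⟨a1, a2⟩ := val_true h ⟨i, by omega⟩ h1
    obtain ⟨c1, c2⟩ := val_false h ⟨i + 1, hi⟩ h2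
    rw [if_pos h1] at hs1
    rw [if_neg h2] at hs2
    rw [a1] at v1; rw [c1] at v2
    simp only [Bool.toNat_true, Bool.toNat_false] at v1 v2 a2 c2
    simp only [h1, h2, not_true, false_and, not_false_iff, iff_true]
    omega
  · obtain ⟨a1, a2⟩ := val_false h ⟨i, by omega⟩ h1
    obtain ⟨c1, c2⟩ := val_true h ⟨i + 1, hi⟩ h2
    rw [if_neg h1] at hs1
    rw [if_pos h2] at hs2
    rw [a1] at v1; rw [c1] at v2
    simp only [Bool.toNat_true, Bool.toNat_false] at v1 v2 a2 c2
    simp only [h1, h2, not_true, and_self, not_false_iff, iff_false]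
    omega
  · obtain ⟨a1, a2⟩ := val_false h ⟨i, by omega⟩ h1
    obtain ⟨c1, c2⟩ := val_false h ⟨i + 1, hi⟩ h2
    rw [if_neg h1] at hs1
    rw [if_neg h2] at hs2
    rw [a1] at v1; rw [c1] at v2
    simp only [Bool.toNat_false] at v1 v2 a2 c2
    simp only [h1, h2, and_false, not_false_iff, iff_true]
    omega

/-- For every `s ≥ 1`, `EN_{s,2}(123)[q] = q^{2 * (s choose 2)} c_s(q)`. -/
theorem result (s : ℕ) (hs : 1 ≤ s) : EN123 s 2 = X ^ (2 * s.choose 2) * cPoly s := by
  classical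
  have hch : 2 * s.choose 2 = s * (s - 1) := by
    rw [Nat.choose_two_right]
    have := Nat.even_mul_pred_self s
    exact Nat.mul_div_cancel' this.two_dvd
  have h1 : EN123 s 2 = ∑ π ∈ univ.filter (fun π => LE (E s) π),
      (X : ℤ[X]) ^ maj (fun i => ((π i : Fin (s * 2)) : ℕ)) := by
    unfold EN123
    apply sum_congr
    · apply filter_congr
      intro π _
      rw [linExt_iff]
      exact ⟨fun h => h.1, fun h => ⟨h, avoids s π h⟩⟩
    · intro π _; rfl
  have h2 := sum_LE (E := E s) (by ring : s * 2 = 2 * s)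
    (fun π => (X : ℤ[X]) ^ maj (fun i => ((π i : Fin (s * 2)) : ℕ)))
    (fun S => (X : ℤ[X]) ^ (∑ i ∈ range (s * 2 - 1), if ¬ (i ∉ S ∧ i + 1 ∈ S) then i + 1 else 0))
    (fun π h => by simp only [maj_pi s π h])
  rw [h1, h2, show s * 2 = 2 * s by ring, hch]
  apply sum_pow_flip s (s * (s - 1)) _ (majS (2 * s)) (fun q => rfl)
  intro S hS
  have h3 := sum_split (2 * s) (fun i => i ∉ S ∧ i + 1 ∈ S)
  have h4 := gauss (2 * s - 1)
  have h5 := pk_eq (2 * s - 1) S
  have h6 := last_mem hs hS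
  have h7 := one_eq_card (mem_wd.1 hS).1
  rw [(mem_wd.1 hS).2.2] at h7
  rw [show 2 * s - 1 + 1 = 2 * s by omega] at h4 h5
  rw [if_pos h6, h7] at h5
  unfold pk at h5
  obtain ⟨p, rfl⟩ : ∃ p, s = p + 1 := ⟨s - 1, by omega⟩
  rw [show p + 1 - 1 = p by omega]
  rw [show 2 * (p + 1) - 1 = 2 * p + 1 by omega] at h3 h4 h5 ⊢
  nlinarith

end Pool.Agent.Results.MP_5b4ede_co.MajorIndexEN
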